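import Pool.Agent.Helper62.NT.Goals

/-!
PROJECT NT (MP_8ff381_an), packet PRJ: the projections on the pieces of leaders.
-/

set_option autoImplicit false

noncomputable section

namespace Pool.Agent.Helper23.NT.PRJ

open Pool.Agent.Helper62.NT

theorem t (h1 : S_RTB) (h2 : S_LOC) : S_PRJ := by
  classical
  intro H _ D c hc
  obtain ⟨r1, r2, r3, r4, r5, r6, r7, r8, r9, r10, r11⟩ := h1 H D.R
  obtain ⟨l1, l2, l3⟩ := h2 H D
  obtain ⟨n, v⟩ := c
  have hs : 0 < D.s n := by
    unfold CD.s
    have hB := D.hB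
    have hB' : (0:ℝ) < D.B := by
      have : 0 < D.B := by omega
      exact_mod_cast this
    exact div_pos D.hΔ (pow_pos hB' _)
  have hvv : v ∈ D.Pc n v := by
    refine ⟨by linarith, ⟨le_refl _, D.R.res_dep v⟩, ?_⟩
    intro n' z h h'
    exact absurd h' (not_lt.mpr h)
  have hv0 : 0 ≤ D.R.dep v := (r1 v).1
  let T : H → Set ℝ := fun x => {t | D.R.dep v ≤ t ∧ t ≤ D.R.dep x ∧ D.R.res x t ∈ D.Pc n v}
  have hT : ∀ x, D.ex (n, v) x = sSup (T x) := fun x => rfl
  have bdd : ∀ x, BddAbove (T x) := fun x => ⟨D.R.dep x, fun t ht => ht.2.1⟩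
  have ne : ∀ x, D.R.le v x → D.R.dep v ∈ T x := by
    intro x hx
    refine ⟨le_refl _, hx.1, ?_⟩
    rw [hx.2]; exact hvv
  have down : ∀ x t t', t ∈ T x → D.R.dep v ≤ t' → t' ≤ t → t' ∈ T x := by
    intro x t t' ht h h'
    obtain ⟨a1, a2, a3, a4⟩ := ht
    have h0 : 0 ≤ t' := hv0.trans h
    have hdt : D.R.dep (D.R.res x t) = t := D.R.dep_res x t (hv0.trans a1) a2
    have hdt' : D.R.dep (D.R.res x t') = t' := D.R.dep_res x t' h0 (h'.trans a2)
    have q1 : D.R.le v (D.R.res x t') := by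
      refine ⟨by rw [hdt']; exact h, ?_⟩
      rw [D.R.res_res x (D.R.dep v) t' hv0 h (h'.trans a2)]
      have := a4.1.2
      rw [D.R.res_res x (D.R.dep v) t hv0 a1 a2] at this
      exact this
    have q2 : D.R.le (D.R.res x t') (D.R.res x t) := by
      refine ⟨by rw [hdt, hdt']; exact h', ?_⟩
      rw [hdt', D.R.res_res x t' t h0 h' a2]
    refine ⟨h, h'.trans a2, ?_, (l3 v _ _ a4 q1 q2).1⟩
    rw [hdt']
    rw [hdt] at a3
    linarith
  have key : ∀ x, D.R.le v x → D.ex (n, v) x ∈ T x := by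
    intro x hx
    rw [hT]
    have hve : D.R.dep v ≤ sSup (T x) := le_csSup (bdd x) (ne x hx)
    have hex : sSup (T x) ≤ D.R.dep x := csSup_le ⟨_, ne x hx⟩ (fun t ht => ht.2.1)
    have hle : ∀ t ∈ T x, t ≤ sSup (T x) := fun t ht => le_csSup (bdd x) ht
    have hlt : ∀ z, z < sSup (T x) → ∃ t ∈ T x, z < t := fun z hz =>
      exists_lt_of_lt_csSup ⟨_, ne x hx⟩ hz
    have hub : sSup (T x) ≤ D.R.dep v + D.s n := by
      refine csSup_le ⟨_, ne x hx⟩ (fun t ht => ?_)
      have := ht.2.2.1
      rw [D.R.dep_res x t (hv0.trans ht.1) ht.2.1] at this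
      exact this
    generalize sSup (T x) = e at hve hex hle hlt hub
    have h0 : 0 ≤ e := hv0.trans hve
    have hde : D.R.dep (D.R.res x e) = e := D.R.dep_res x e h0 hex
    refine ⟨hve, hex, ?_, ⟨by rw [hde]; exact hve, ?_⟩, ?_⟩
    · rw [hde]; exact hub
    · rw [D.R.res_res x (D.R.dep v) e hv0 hve hex]; exact hx.2
    · intro n' z hz hz' hcp
      rw [hde] at hz'
      obtain ⟨t, ht, hzt⟩ := hlt z hz'
      have hte : t ≤ e := hle t ht
      have ht0 : 0 ≤ t := hv0.trans ht.1
      have hg : D.R.gp (D.R.res x e) (D.R.res x t) = t := by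
        have := (r3 (D.R.res x e) t ht0 (by rw [hde]; exact hte)).2.1
        rwa [D.R.res_res x t e ht0 hte hex] at this
      have h3 := l1 n' (D.R.res x e) (D.R.res x t) z (by rw [hg]; exact hzt) hcp
      exact ht.2.2.2.2 n' z hz (by rw [D.R.dep_res x t ht0 ht.2.1]; exact hzt) h3
  have exle : ∀ x t, t ∈ T x → t ≤ D.ex (n, v) x := fun x t ht => le_csSup (bdd x) ht
  have prl : ∀ x, D.R.le v x → D.pr (n, v) x = D.R.res x (D.ex (n, v) x) := by
    intro x hx
    unfold CD.pr
    rw [if_pos hx]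
  have prn : ∀ x, ¬ D.R.le v x → D.pr (n, v) x = v := by
    intro x hx
    unfold CD.pr
    rw [if_neg hx]
  have gple : ∀ x y, D.R.le v x → D.R.le v y → D.R.dep v ≤ D.R.gp x y := by
    intro x y hx hy
    exact (D.R.res_eq x y (D.R.dep v) hv0 hx.1 hy.1).1 (by rw [hx.2, hy.2])
  have ngple : ∀ x y, D.R.le v x → ¬ D.R.le v y → D.R.gp x y ≤ D.R.dep v := by
    intro x y hx hy
    by_contra hg
    rw [not_le] at hg
    apply hy
    have h3 : D.R.dep v ≤ D.R.dep y := hg.le.trans (r2 x y)
    refine ⟨h3, ?_⟩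
    rw [← (D.R.res_eq x y (D.R.dep v) hv0 hx.1 h3).2 hg.le]
    exact hx.2
  -- the common part
  have common : ∀ x y, D.R.le v x → D.R.le v y → D.ex (n, v) x < D.R.gp x y →
      D.ex (n, v) y = D.ex (n, v) x := by
    intro x y hx hy hlt
    have gx : D.R.gp x y ≤ D.R.dep x := D.R.gp_le x y
    have gy : D.R.gp x y ≤ D.R.dep y := r2 x y
    have tr : ∀ t, t ≤ D.R.gp x y → t ∈ T y → t ∈ T x := by
      intro t ht hty
      have ht0 : 0 ≤ t := hv0.trans hty.1
      refine ⟨hty.1, ht.trans gx, ?_⟩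
      rw [(D.R.res_eq x y t ht0 (ht.trans gx) (ht.trans gy)).2 ht]
      exact hty.2.2
    have tr' : ∀ t, t ≤ D.R.gp x y → t ∈ T x → t ∈ T y := by
      intro t ht htx
      have ht0 : 0 ≤ t := hv0.trans htx.1
      refine ⟨htx.1, ht.trans gy, ?_⟩
      rw [← (D.R.res_eq x y t ht0 (ht.trans gx) (ht.trans gy)).2 ht]
      exact htx.2.2
    have kx := key x hx
    have ky := key y hy
    apply le_antisymm
    · by_contra hcon
      rw [not_le] at hcon
      have hm : min (D.ex (n, v) y) (D.R.gp x y) ∈ T y :=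
        down y _ _ ky (le_min ky.1 (gple x y hx hy)) (min_le_left _ _)
      have hm' := exle x _ (tr _ (min_le_right _ _) hm)
      exact absurd hm' (not_le.mpr (lt_min hcon hlt))
    · exact exle y _ (tr' _ hlt.le kx)
  have gpres : ∀ x y s t', 0 ≤ s → s ≤ D.R.dep x → 0 ≤ t' → t' ≤ D.R.dep y →
      D.R.gp x y ≤ s → D.R.gp x y ≤ t' → D.R.gp (D.R.res x s) (D.R.res y t') = D.R.gp x y := by
    intro x y s t' hs0 hsx ht0 hty hgs hgt
    have gx : D.R.gp x y ≤ D.R.dep x := D.R.gp_le x y
    have gy : D.R.gp x y ≤ D.R.dep y := r2 x y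
    have g0 := D.R.gp_nonneg x y
    have ds : D.R.dep (D.R.res x s) = s := D.R.dep_res x s hs0 hsx
    have dt : D.R.dep (D.R.res y t') = t' := D.R.dep_res y t' ht0 hty
    apply le_antisymm
    · set g' := D.R.gp (D.R.res x s) (D.R.res y t') with hg'
      have g'0 : 0 ≤ g' := D.R.gp_nonneg _ _
      have g's : g' ≤ s := by
        have := D.R.gp_le (D.R.res x s) (D.R.res y t')
        rw [ds] at this
        exact this
      have g't : g' ≤ t' := by
        have := r2 (D.R.res x s) (D.R.res y t')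
        rw [dt] at this
        exact this
      refine (D.R.res_eq x y g' g'0 (g's.trans hsx) (g't.trans hty)).1 ?_
      have h3 := (D.R.res_eq (D.R.res x s) (D.R.res y t') g' g'0 (by rw [ds]; exact g's)
        (by rw [dt]; exact g't)).2 le_rfl
      rw [D.R.res_res x g' s g'0 g's hsx, D.R.res_res y g' t' g'0 g't hty] at h3
      exact h3
    · refine (D.R.res_eq (D.R.res x s) (D.R.res y t') _ g0 (by rw [ds]; exact hgs)
        (by rw [dt]; exact hgt)).1 ?_
      rw [D.R.res_res x _ s g0 hgs hsx, D.R.res_res y _ t' g0 hgt hty]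
      exact (D.R.res_eq x y _ g0 gx gy).2 le_rfl
  refine ⟨?_, ?_, ?_, ?_⟩
  · intro x
    by_cases hx : D.R.le v x
    · rw [prl x hx]; exact (key x hx).2.2
    · rw [prn x hx]; exact hvv
  · intro x hx
    exact key x hx
  · intro x y
    show dist (D.pr (n, v) x) (D.pr (n, v) y) =
      (if D.R.le v x then max 0 (D.ex (n, v) x - max (D.R.gp x y) (D.R.dep v)) else 0) +
      (if D.R.le v y then max 0 (D.ex (n, v) y - max (D.R.gp x y) (D.R.dep v)) else 0)
    by_cases hx : D.R.le v x <;> by_cases hy : D.R.le v y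
    · rw [if_pos hx, if_pos hy, prl x hx, prl y hy, max_eq_left (gple x y hx hy)]
      have kx := key x hx
      have ky := key y hy
      by_cases hlt : D.ex (n, v) x < D.R.gp x y
      · have h3 := common x y hx hy hlt
        rw [h3, max_eq_left (by linarith), add_zero]
        have gx : D.R.gp x y ≤ D.R.dep x := D.R.gp_le x y
        have gy : D.R.gp x y ≤ D.R.dep y := r2 x y
        rw [(D.R.res_eq x y _ (hv0.trans kx.1) (hlt.le.trans gx) (hlt.le.trans gy)).2 hlt.le]
        exact dist_self _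
      · rw [not_lt] at hlt
        have hlt' : D.R.gp x y ≤ D.ex (n, v) y := by
          by_contra hcon
          rw [not_le, D.R.gp_comm] at hcon
          have h3 := common y x hy hx hcon
          rw [D.R.gp_comm] at hcon
          linarith
        rw [D.R.dist_eq, gpres x y _ _ (hv0.trans kx.1) kx.2.1 (hv0.trans ky.1) ky.2.1 hlt hlt',
          D.R.dep_res x _ (hv0.trans kx.1) kx.2.1, D.R.dep_res y _ (hv0.trans ky.1) ky.2.1,
          max_eq_right (by linarith), max_eq_right (by linarith)]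
        ring
    · have kx := key x hx
      rw [if_pos hx, if_neg hy, prl x hx, prn y hy, max_eq_right (ngple x y hx hy), add_zero,
        max_eq_right (by linarith [kx.1]), dist_comm]
      have h3 := r10 x (D.R.dep v) (D.ex (n, v) x) hv0 kx.1 kx.2.1
      rw [hx.2] at h3
      exact h3
    · have ky := key y hy
      have hg := ngple y x hy hx
      rw [D.R.gp_comm] at hg
      rw [if_neg hx, if_pos hy, prn x hx, prl y hy, max_eq_right hg, zero_add,
        max_eq_right (by linarith [ky.1])]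
      have h3 := r10 y (D.R.dep v) (D.ex (n, v) y) hv0 ky.1 ky.2.1
      rw [hy.2] at h3
      exact h3
    · rw [if_neg hx, if_neg hy, prn x hx, prn y hy, dist_self, add_zero]
  · intro x hx
    show D.pr (n, v) x = v
    by_cases hle : D.R.le v x
    · have hvx : v = x := by
        by_contra hne
        exact hx ⟨hle, hne⟩
      rw [prl x hle]
      have kx := key x hle
      have h3 : D.ex (n, v) x = D.R.dep v := le_antisymm (by
        have := kx.2.1
        rw [← hvx] at this
        rw [← hvx]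
        exact this) kx.1
      rw [h3]
      exact hle.2
    · exact prn x hle

end Pool.Agent.Helper23.NT.PRJ
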